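import Pool.Agent.TH707.BQ.Close

/-!
# How many strings of a random oracle have to be changed to put `NP` into `BQP`?

Relative to almost every oracle `O`, `NP` is not contained in `BQP`. An adversary who knows `O`
changes, for all large `n`, at most `g n` of the strings of length at most `n`; the result is the
oracle `A` (`Close g O A`).

* If for every `ε > 0` there are infinitely many `n` with `g n ≤ 2 ^ (n ^ ε)`, then for almost every
  `O`, relative to all these `A`, `NP` is not contained in `BQP/poly`.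
* Otherwise every oracle `O` can be changed such that `NEXP` is contained in `BPP` relative to `A`;
  and almost every `O` can be changed such that, relative to `A`, the polynomial hierarchy is
  infinite, every language in `PSPACE` is decided by quantum circuits which ask one question, and
  such circuits decide a language outside the polynomial hierarchy.
-/

set_option autoImplicit false

namespace Pool.Agent.Results.MP_0f8dca_lc.ChangedStrings

open Pool.Agent.NPC Pool.Agent.H620R2.Gauge Pool.Agent.H516R2.EQP Pool.Agent.H591R3.PHG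
  Pool.Agent.H440Q Pool.Agent.TH707.BQ
open Pool.Agent.W900.CH (Close)
open Pool.Agent.H628R3.RO (randomOracle)
open MeasureTheory Filter

theorem result (g : ℕ → ℝ) :
    ((∀ ε : ℝ, 0 < ε → ∃ᶠ n : ℕ in atTop, g n ≤ 2 ^ (n : ℝ) ^ ε) →
      ∀ᵐ O ∂randomOracle, ∀ A : Oracle, Close g O A →
        ∃ L, IsNP A L ∧ ¬ WithAdvice (IsBQP A) L) ∧
    ((¬ ∀ ε : ℝ, 0 < ε → ∃ᶠ n : ℕ in atTop, g n ≤ 2 ^ (n : ℝ) ^ ε) →
      (∀ O : Oracle, ∃ A : Oracle, Close g O A ∧ ∀ L, IsNEXP A L → IsBPP A L) ∧
      ∀ᵐ O ∂randomOracle, ∃ A : Oracle, Close g O A ∧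
        (∀ k : ℕ, ∃ L, IsSig A (k + 1) L ∧ ¬ IsSig A k L) ∧
        (∀ L, IsPSPACE A L → IsBQPq 1 A L) ∧ ∃ L, IsBQPq 1 A L ∧ ¬ IsPH A L) := by
  refine ⟨fun hg => ae_notBQP hg, fun hg =>
    ⟨fun O => Pool.Agent.W900.CH.exists_close_NEXP hg O, ?_⟩⟩
  filter_upwards [exists_close_YG hg] with O hO
  obtain ⟨A, h1, h2, h3, h4⟩ := hO
  exact ⟨A, h1, h3, h2, h4⟩

end Pool.Agent.Results.MP_0f8dca_lc.ChangedStrings
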