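import Pool.Agent.TH681.Qa.Low
import Pool.Agent.TH681.Qa.Np
import Pool.Agent.TH681.Pa.Up

/-!
# `NP` against quantum algorithms with advice: the exact threshold

Relative to a random oracle `A` the class `NP` is not contained in `BQP`. Here quantum algorithms
get much more: they run in time `2 ^ (c n)` for an arbitrary constant `c`, they get exponentially
long advice, whose bits they may ask for in superposition, and they may err on a constant fraction
of the inputs. For almost all oracles `A` the following holds for all constants `α ≥ 0` and
`0 ≤ δ ≤ 1 / 2`, where `H` is the binary entropy.

* If `α < 1 - H(δ)`, then there is a language `L` in `NP`, relative to `A`, for which every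
  quantum algorithm that works in time `2 ^ (c n)` with at most `α 2 ^ n` bits of advice is wrong on
  more than `δ 2 ^ n` of the inputs of length `n`, for all large `n`.
* If `α > 1 - H(δ)`, then all languages whatsoever are decided correctly, on all but `δ 2 ^ n` of
  the inputs of length `n` for all large `n`, by deterministic polynomial-time algorithms with
  `α 2 ^ n` bits of advice.

So some languages in `NP` are as hard for quantum algorithms with advice as arbitrary languages.

The language `L` consists of the strings `x` for which one of the blocks of `A` with the names
`x w`, `|w| = |x| ^ 2`, is special; the probability that a block is special is such that about one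
half of the strings `x` are in `L`. For the lower bound fix the advice and consider a longest list of
special blocks each of which has a large query weight, summed over all inputs of length `n`, in the
oracle in which only the former ones are special. Every other special block has a small weight
then. With overwhelming probability the total weight of the other special blocks is small, and the
hybrid argument shows that the answers are, on almost all inputs, the answers for the oracle in
which only the blocks in the list are special. These do not depend on the other blocks, so the
errors are distributed like those of random guesses. The lists are few, compared with the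
probability that all blocks in a list are special; all bounds are so small that they pay for the
`2 ^ (α 2 ^ n)` advice strings. The opposite bound comes from covering codes.
-/

set_option autoImplicit false

namespace Pool.Agent.Results.MP_0f8dca_lc.QuantumAdviceThreshold

open Pool.Agent.NPC Pool.Agent.H620R2.Gauge Pool.Agent.TH681.Pa Pool.Agent.TH681.Qa Filter
  MeasureTheory
open Pool.Agent.H628R3.RO (randomOracle)

/-- The threshold for advice and errors, for `NP` against quantum algorithms, relative to almost
all oracles. -/
theorem result : ∀ᵐ A ∂randomOracle, ∀ α δ : ℝ, 0 ≤ α → 0 ≤ δ → δ ≤ 1 / 2 →
    (α * Real.log 2 + Real.binEntropy δ < Real.log 2 → ∃ L : Set (List Bool), IsNP A L ∧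
      ∀ C : List Bool → List Unit × List Gate, PolyTime (fun x => bits (C x)) →
        ∀ c : ℕ, ∀ᶠ n : ℕ in atTop, ∀ m s : ℕ, m ≤ 2 ^ (c * n) → (s : ℝ) ≤ α * 2 ^ n →
          ∀ H, Bits H s → δ * 2 ^ n < (wrongQ C A H m L n : ℝ)) ∧
    (Real.log 2 < α * Real.log 2 + Real.binEntropy δ → ∀ L' : Set (List Bool), ∃ V : Alg,
      ∀ᶠ n : ℕ in atTop, ∃ (s : ℕ) (H : Oracle), (s : ℝ) ≤ α * 2 ^ n ∧ Bits H s ∧
        (wrong V A H 0 0 L' n : ℝ) ≤ δ * 2 ^ n) := by
  filter_upwards [lowQ] with A hA α δ hα hδ hδ'
  refine ⟨fun h => ?_, fun h L' => all_languages hδ hδ' h A L'⟩
  obtain ⟨k, F, hF⟩ := hA α δ hα hδ hδ' h
  exact ⟨_, HL_NP A k F, hF⟩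

end Pool.Agent.Results.MP_0f8dca_lc.QuantumAdviceThreshold
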