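import Pool.Agent.TH93.U2.Ends

set_option autoImplicit false

/-!
# Two witnesses, quantum computers, and the separators of all disjoint `NP` pairs

Relative to a random oracle, quantum algorithms of subexponential time do not decide all languages
with at most two witnesses, even if they get for free all languages in `UP` and in `NP ∩ coNP`, and
a separator of each disjoint `NP` pair. Neither do quantum witnesses help for the complement.
-/

namespace Pool.Agent.Results.MP_0f8dca_lc.SeparatorsTwoWitnesses

open Pool.Agent.H628R3.RO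
open Pool.Agent.H822R2.ESY (join IsP)
open Pool.Agent.H620R2.Gauge (IsBQP)
open Pool.Agent.TH93.U2

/-- For every oracle `B` and almost every oracle `A` there are a language `L` which has an `NP`
verifier relative to `A` that accepts at most two witnesses for every string, and an oracle `S` such
that, relative to `O = (A ⊕ B) ⊕ S`: every language in `UP` relative to `A ⊕ B` is in `P`, every
disjoint `NP` pair relative to `A ⊕ B` is separated by a language in `P`, but `L` is not in `BQP` and
not in bounded-error quantum time `2 ^ O(n ^ c)`, and the complement of `L` is not in `QMA` and not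
in `QMA` with time `2 ^ O(n ^ c)`, for all `c < 1`. -/
theorem result (B : Oracle) : ∀ᵐ A ∂randomOracle, ∃ (L : Set (List Bool)) (S O : Oracle),
    O = join (join A B) S ∧ IsUPle 2 A L ∧
    (∀ K : Set (List Bool), IsUP (join A B) K → IsP O K) ∧
    (∀ K₀ K₁ : Set (List Bool), IsPair (IsNP (join A B)) K₀ K₁ → ∃ T : Set (List Bool),
      IsP O T ∧ K₀ ⊆ T ∧ Disjoint K₁ T) ∧
    ¬ IsBQP O L ∧ ¬ IsQMA O Lᶜ ∧
    ∀ c : ℚ, c < 1 → ¬ IsBQSub c O L ∧ ¬ IsQMASub c O Lᶜ := by
  filter_upwards [ends B] with A hA
  obtain ⟨L, S, h1, h2, h3, h4⟩ := hA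
  refine ⟨L, S, _, rfl, h1, h2, fun K₀ K₁ hK => ?_,
    fun h => h4.bqsub 0 (by norm_num) (bqsub_of_bqp _ h),
    fun h => h4.qmasub 0 (by norm_num) (qmasub_of_qma _ h),
    fun c hc => ⟨h4.bqsub c hc, h4.qmasub c hc⟩⟩
  obtain ⟨T, g0, g1, g2, -⟩ := h3 K₀ K₁ hK
  refine ⟨_, g2, g0, ?_⟩
  rw [Set.disjoint_left]
  intro q hq hq'
  have h5 : T q = true := hq'
  rw [g1 q hq] at h5
  exact Bool.false_ne_true h5

end Pool.Agent.Results.MP_0f8dca_lc.SeparatorsTwoWitnesses
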