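import Pool.Agent.TH682.QU.Main

set_option autoImplicit false

/-!
# `UP ∩ coUP` is not contained in `BQP` relative to a random oracle

The hidden blocks of `Pool.Agent.H673R3.UC` and `Pool.Agent.H583R2.NC` (starting repository) are
combined with a hybrid argument for quantum circuits which ask the random oracle, a set in
`NP ∩ coNP` and an arbitrary further oracle.
-/

namespace Pool.Agent.Results.MP_0f8dca_lc.UnambiguousRandomOracle

open MeasureTheory Pool.Agent.NPC Pool.Agent.H628R3.RO
open Pool.Agent.H620R2.Gauge (Gate accProb IsBQP)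
open Pool.Agent.W938.QM (join)
open Pool.Agent.TH682.QU (chi IsBQSub)

/-- There is a constant `c > 0` such that for every oracle `B` and almost every oracle `A`: for
every language `K` in `NP ∩ coNP` relative to `A` there is a language `L` in `UP ∩ coUP` relative
to `A` which is not in `BQP`, and not in bounded-error quantum time `2 ^ O(n ^ c)`, relative to `A`,
to `A ⊕ B` and to `(A ⊕ K) ⊕ B`. -/
theorem result : ∃ c : ℝ, 0 < c ∧ ∀ B : Oracle, ∀ᵐ A ∂randomOracle, ∀ K : Set (List Bool),
    IsNP A K → IsCoNP A K → ∃ L : Set (List Bool), IsUP A L ∧ IsUP A Lᶜ ∧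
      ∀ O : Oracle, O = A ∨ O = join A B ∨ O = join (join A (chi K)) B →
        ¬ IsBQP O L ∧ ¬ IsBQSub c O L := by
  obtain ⟨c, hc, h⟩ := Pool.Agent.TH682.QU.main
  refine ⟨c, hc, fun B => ?_⟩
  filter_upwards [h B] with A hA K hK hK'
  obtain ⟨L, h1, h2, h3, h4, h5⟩ := hA K hK hK'
  refine ⟨L, h1, h2, ?_⟩
  have key : ∀ O : Oracle, ¬ IsBQSub c O L → ¬ IsBQP O L ∧ ¬ IsBQSub c O L := fun O hO =>
    ⟨fun hb => hO (Pool.Agent.TH682.QU.bqsub_of_bqp c hb), hO⟩
  rintro O (rfl | rfl | rfl)
  · exact key _ h3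
  · exact key _ h4
  · exact key _ h5

end Pool.Agent.Results.MP_0f8dca_lc.UnambiguousRandomOracle
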